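import Pool.Agent.Y97.FD.Apm

/-!
# Operators on the first slots via kernels (job FD-KER)
-/

set_option linter.unusedSectionVars false

open Finset Matrix Pool.Agent.W552 Pool.Agent.Y97 Pool.Agent.Y97.FD

namespace Pool.Agent.Y784.FD

section

variable {R : Type} [Fintype R] [DecidableEq R] {F : Type*} [CommRing F]
  {κ κ' ν : Type} [Fintype κ] [DecidableEq κ] [Fintype κ'] [DecidableEq κ'] [Fintype ν]
  [DecidableEq ν]

/-- The relabelling for the product of the kernel and the tensor. -/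
def eAp (κ' κ ν : Type) : (κ' ⊕ κ) ⊕ (κ ⊕ ν) ≃ (κ' ⊕ ν) ⊕ (κ ⊕ κ) where
  toFun := fun x => match x with
    | Sum.inl (Sum.inl a) => Sum.inl (Sum.inl a)
    | Sum.inl (Sum.inr b) => Sum.inr (Sum.inl b)
    | Sum.inr (Sum.inl c) => Sum.inr (Sum.inr c)
    | Sum.inr (Sum.inr d) => Sum.inl (Sum.inr d)
  invFun := fun x => match x with
    | Sum.inl (Sum.inl a) => Sum.inl (Sum.inl a)
    | Sum.inr (Sum.inl b) => Sum.inl (Sum.inr b)
    | Sum.inr (Sum.inr c) => Sum.inr (Sum.inl c)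
    | Sum.inl (Sum.inr d) => Sum.inr (Sum.inr d)
  left_inv := by rintro ((a | b) | (c | d)) <;> rfl
  right_inv := by rintro ((a | b) | (c | d)) <;> rfl

theorem apM_apply (u : (κ' → R) → (κ → R) → F) (f : (κ ⊕ ν → R) → F) (J : κ' ⊕ ν → R) :
    apM u f J = ∑ I : κ → R, u (fun s => J (Sum.inl s)) I *
      f (Sum.elim I (fun s => J (Sum.inr s))) := rfl

/-- the partner of all entries, as a permutation -/
def invE (S : Std R) (κ : Type) : (κ → R) ≃ (κ → R) where
  toFun := fun I s => S.inv (I s)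
  invFun := fun I s => S.inv (I s)
  left_inv := fun I => by funext s; exact S.inv_inv _
  right_inv := fun I => by funext s; exact S.inv_inv _

theorem apM_eq_pc' (S : Std R) (u : (κ' → R) → (κ → R) → F) (f : (κ ⊕ ν → R) → F) :
    apM u f = pc S (rel (eAp κ' κ ν) (tmul (kerT S u) f)) := by
  funext J
  rw [apM_apply, pc_apply]
  refine Fintype.sum_equiv (invE S κ) _ _ fun I => ?_
  rw [rel_apply, tmul_apply]
  have h1 : (fun s => (Sum.elim J (Sum.elim (invE S κ I) (fun s => S.inv (invE S κ I s))))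
      (eAp κ' κ ν (Sum.inl s))) = Sum.elim (fun s => J (Sum.inl s)) (invE S κ I) := by
    funext s; rcases s with s | s <;> rfl
  have h2 : (fun s => (Sum.elim J (Sum.elim (invE S κ I) (fun s => S.inv (invE S κ I s))))
      (eAp κ' κ ν (Sum.inr s))) = Sum.elim I (fun s => J (Sum.inr s)) := by
    funext s
    rcases s with s | s
    · exact S.inv_inv (I s)
    · rfl
  rw [h1, h2, kerT]
  have h3 : (fun s => S.inv ((Sum.elim (fun s => J (Sum.inl s)) (invE S κ I)) (Sum.inr s))) = I := by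
    funext s; exact S.inv_inv (I s)
  have h4 : (∏ s, (S.sg ((Sum.elim (fun s => J (Sum.inl s)) (invE S κ I)) (Sum.inr s)) : F)) *
      ∏ s, (S.sg (invE S κ I s) : F) = 1 := by
    rw [← Finset.prod_mul_distrib]
    refine Finset.prod_eq_one fun s _ => ?_
    show (S.sg (invE S κ I s) : F) * (S.sg (invE S κ I s) : F) = 1
    rw [← Int.cast_mul, S.sg_sq, Int.cast_one]
  rw [h3]
  show u (fun s => J (Sum.inl s)) I * f (Sum.elim I fun s => J (Sum.inr s)) = _
  calc u (fun s => J (Sum.inl s)) I * f (Sum.elim I fun s => J (Sum.inr s))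
      = u (fun s => J (Sum.inl s)) I * f (Sum.elim I fun s => J (Sum.inr s)) *
        ((∏ s, (S.sg ((Sum.elim (fun s => J (Sum.inl s)) (invE S κ I)) (Sum.inr s)) : F)) *
          ∏ s, (S.sg (invE S κ I s) : F)) := by rw [h4, mul_one]
    _ = _ := by
        show _ = u (fun s => J (Sum.inl s)) I *
          (∏ s, (S.sg ((Sum.elim (fun s => J (Sum.inl s)) (invE S κ I)) (Sum.inr s)) : F)) *
          f (Sum.elim I fun s => J (Sum.inr s)) * ∏ s, (S.sg (invE S κ I s) : F)
        ring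

theorem apM_eq_pc (S : Std R) (u : (κ' → R) → (κ → R) → F) (f : (κ ⊕ ν → R) → F) :
    ∃ e : (κ' ⊕ κ) ⊕ (κ ⊕ ν) ≃ (κ' ⊕ ν) ⊕ (κ ⊕ κ),
      apM u f = pc S (rel e (tmul (kerT S u) f)) :=
  ⟨eAp κ' κ ν, apM_eq_pc' S u f⟩

theorem kerT_eq (S : Std R) (u : (κ' → R) → (κ → R) → F) :
    kerT S u = apM u (rel (Equiv.sumComm κ κ) (cupA S κ F)) := by
  funext J
  rw [apM_apply, Finset.sum_eq_single (fun s => S.inv (J (Sum.inr s)))]
  · rw [kerT, rel_apply, cupA]
    congr 1
    refine Finset.prod_congr rfl fun s _ => ?_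
    exact (if_pos rfl).symm
  · intro I _ hI
    have : ∃ s, I s ≠ S.inv (J (Sum.inr s)) := by
      by_contra h
      push Not at h
      exact hI (funext h)
    obtain ⟨s, hs⟩ := this
    have h0 : rel (Equiv.sumComm κ κ) (cupA S κ F) (Sum.elim I fun s => J (Sum.inr s)) = 0 := by
      rw [rel_apply, cupA]
      exact Finset.prod_eq_zero (Finset.mem_univ s) (if_neg hs)
    rw [h0, mul_zero]
  · intro h; exact absurd (Finset.mem_univ _) h

theorem act_elim (M : Matrix R R F) (f : (κ ⊕ ν → R) → F) (I : κ → R) (J : ν → R) :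
    act M f (Sum.elim I J) =
      ∑ K2 : ν → R, (∏ s, M (J s) (K2 s)) * act M (fun I' => f (Sum.elim I' K2)) I := by
  rw [act_apply, sum_sumArrow, Finset.sum_comm]
  refine Finset.sum_congr rfl fun K2 _ => ?_
  rw [act_apply, Finset.mul_sum]
  refine Finset.sum_congr rfl fun K1 _ => ?_
  rw [Fintype.prod_sum_type]
  simp only [Sum.elim_inl, Sum.elim_inr]
  ring

theorem act_apM {M M' : Matrix R R F} (h : M' * M = 1) (u : (κ' → R) → (κ → R) → F)
    (f : (κ ⊕ ν → R) → F) : act M (apM u f) = apM (cjM M M' u) (act M f) := by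
  funext J
  -- left hand side
  have hL : act M (apM u f) J = ∑ J' : κ' → R, ∑ K2 : ν → R, ∑ I' : κ → R,
      (∏ s, M (J (Sum.inl s)) (J' s)) * (∏ s, M (J (Sum.inr s)) (K2 s)) * (u J' I' *
        f (Sum.elim I' K2)) := by
    rw [act_apply, sum_sumArrow]
    refine Finset.sum_congr rfl fun J' _ => Finset.sum_congr rfl fun K2 _ => ?_
    rw [apM_apply, Finset.mul_sum]
    refine Finset.sum_congr rfl fun I' _ => ?_
    rw [Fintype.prod_sum_type]
    simp only [Sum.elim_inl, Sum.elim_inr]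
  have hR : apM (cjM M M' u) (act M f) J = ∑ I : κ → R, ∑ J' : κ' → R, ∑ I' : κ → R,
      ∑ K2 : ν → R, (∏ s, M (J (Sum.inl s)) (J' s)) * u J' I' * (∏ s, M' (I' s) (I s)) *
        ((∏ s, M (J (Sum.inr s)) (K2 s)) * act M (fun I' => f (Sum.elim I' K2)) I) := by
    rw [apM_apply]
    refine Finset.sum_congr rfl fun I _ => ?_
    rw [act_elim, cjM, Finset.sum_mul]
    refine Finset.sum_congr rfl fun J' _ => ?_
    rw [Finset.sum_mul]
    refine Finset.sum_congr rfl fun I' _ => ?_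
    rw [Finset.mul_sum]
  rw [hL, hR]
  conv_rhs => rw [Finset.sum_comm]
  refine Finset.sum_congr rfl fun J' _ => ?_
  conv_rhs => rw [Finset.sum_comm]
  conv_lhs => rw [Finset.sum_comm]
  refine Finset.sum_congr rfl fun I' _ => ?_
  conv_rhs => rw [Finset.sum_comm]
  refine Finset.sum_congr rfl fun K2 _ => ?_
  have h1 : act M' (act M (fun I' => f (Sum.elim I' K2))) I' = f (Sum.elim I' K2) := by
    rw [← act_mul, h, act_one]
  rw [← h1, act_apply, Finset.mul_sum, Finset.mul_sum]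
  refine Finset.sum_congr rfl fun I _ => ?_
  ring

theorem apM_add (u : (κ' → R) → (κ → R) → F) (f g : (κ ⊕ ν → R) → F) :
    apM u (f + g) = apM u f + apM u g := by
  funext J
  simp only [apM_apply, Pi.add_apply, mul_add, Finset.sum_add_distrib]

theorem apM_sub (u : (κ' → R) → (κ → R) → F) (f g : (κ ⊕ ν → R) → F) :
    apM u (f - g) = apM u f - apM u g := by
  funext J
  simp only [apM_apply, Pi.sub_apply, mul_sub, Finset.sum_sub_distrib]

theorem apM_zero (u : (κ' → R) → (κ → R) → F) : apM u (0 : (κ ⊕ ν → R) → F) = 0 := by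
  funext J
  simp [apM_apply]

theorem apM_smul (u : (κ' → R) → (κ → R) → F) (c : F) (f : (κ ⊕ ν → R) → F) :
    apM u (c • f) = c • apM u f := by
  funext J
  simp only [apM_apply, Pi.smul_apply, smul_eq_mul, Finset.mul_sum]
  exact Finset.sum_congr rfl fun I _ => by ring

theorem apM_sum {ι : Type*} (u : (κ' → R) → (κ → R) → F) (s : Finset ι)
    (f : ι → (κ ⊕ ν → R) → F) : apM u (∑ i ∈ s, f i) = ∑ i ∈ s, apM u (f i) := by
  funext J
  simp only [apM_apply, Finset.sum_apply, Finset.mul_sum]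
  exact Finset.sum_comm

theorem mapT_apM {E : Type*} [CommRing E] (φ : F →+* E) (u : (κ' → R) → (κ → R) → F)
    (f : (κ ⊕ ν → R) → F) :
    mapT φ (apM u f) = apM (fun J I => φ (u J I)) (mapT φ f) := by
  funext J
  rw [mapT_apply, apM_apply, apM_apply, map_sum]
  exact Finset.sum_congr rfl fun I _ => by rw [map_mul]; rfl

end

section

variable {R : Type} [Fintype R] [DecidableEq R] {κ κ' ν : Type} [Fintype κ] [DecidableEq κ]
  [Fintype κ'] [DecidableEq κ'] [Fintype ν] [DecidableEq ν] {K : Type*} [Field K] [CharZero K]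
  {S : Std R} {A : ∀ κ : Type, ((κ → R) → K) → Prop} {B : Bas S A} {x : B.Vr → ℂ}
  {k : Matrix R R ℂ}

theorem PP.sum (hA : Closed S A) {ι : Type*} (s : Finset ι) {f : ι → (κ → R) → K}
    (hf : ∀ i ∈ s, PP B x k κ (f i)) : PP B x k κ (∑ i ∈ s, f i) := by
  classical
  induction s using Finset.induction_on with
  | empty => rw [Finset.sum_empty]; exact PP.nt hA (NT.zero hA)
  | insert a s ha ih =>
    rw [Finset.sum_insert ha]
    exact PP.add hA (hf a (Finset.mem_insert_self _ _))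
      (ih fun i hi => hf i (Finset.mem_insert_of_mem hi))

theorem PP.cupA (hA : Closed S A) (h : MM B x k) : PP B x k (κ ⊕ κ) (cupA S κ K) := by
  rw [cupA_eq]
  exact PP.sum hA _ fun c _ => PP.cup hA h c

theorem PP.pc (hA : Closed S A) (h : MM B x k) {f : (κ ⊕ (κ' ⊕ κ') → R) → K}
    (hf : PP B x k _ f) : PP B x k κ (pc S f) := by
  rw [pc_eq_ctr]
  exact PP.ctr hA h hf (PP.cupA hA h)

theorem PP.op (hA : Closed S A) (h : MM B x k) {u : (κ' → R) → (κ → R) → K}
    (hfull : ∀ a : ((κ' ⊕ κ) → R) → K, A (κ' ⊕ κ) a → PP B x k (κ' ⊕ κ) a)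
    (hu : ∀ a : ((κ ⊕ κ) → R) → K, A (κ ⊕ κ) a → A (κ' ⊕ κ) (apM u a))
    {a : ((κ ⊕ ν) → R) → K} (ha : PP B x k (κ ⊕ ν) a) : PP B x k (κ' ⊕ ν) (apM u a) := by
  have h1 : PP B x k (κ' ⊕ κ) (kerT S u) := by
    apply hfull
    rw [kerT_eq]
    exact hu _ (hA.rel _ hA.cupA_mem)
  rw [apM_eq_pc' S]
  exact PP.pc hA h (PP.rel hA h _ (PP.tmul hA h h1 ha))

end

end Pool.Agent.Y784.FD
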